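import Mathlib
import Pool.Agent.R463.PrReg

set_option autoImplicit false

/-!
# The local proportions of the primes `p` with class number one

For every set of primes `p` for which `ℚ(√p)` has class number one (and for every set for which it has not),
almost all its elements see the set in all windows around them with the right order of magnitude, and at all
scales with few exceptions with a constant density.
-/

namespace Pool.Agent.Results.MP_d0fd9b_nt.RegularPoints

open Finset Filter
open Pool.Agent.R463.PrReg

/-- the real quadratic field `ℚ(√d)` has class number one -/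
def ClassOne (d : ℕ) : Prop :=
  ∀ (K : Type) [Field K] [NumberField K], Module.finrank ℚ K = 2 → (∃ x : K, x ^ 2 = (d : K)) →
    NumberField.classNumber K = 1

open Classical in
/-- **The local proportions of the primes with class number one.** Let `0 < θ ≤ 1`. For all `ε > 0` there is
`c > 0`, and for all `δ > 0` there is `B`, such that for all large `X`, all `X ^ θ ≤ Y ≤ X / 2` and EVERY set
`A` of primes `p` for which `ℚ(√p)` has class number one, for instance the set of all of them (and also for
every set `A` of primes `p` for which it has not): at most `ε Y / log X` elements `m` of `A` in `(X, X + Y]` are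
not regular points of `A`. Regular point: (1) all intervals `(m - s, m + t]` with `s, t ≤ Y` and
`c (s + t) ≥ log X` contain between `c (s + t) / log X` and `(s + t) / (c log X)` elements of `A`; (2) for all
scales `log X ≤ 2 ^ j ≤ Y` with at most `B` exceptions there is a proportion `c ≤ lam ≤ 1 / c` such that all
`(m - s, m + t]`, `s, t ≤ 2 ^ j`, contain `lam (s + t) / log X` elements of `A`, up to `δ 2 ^ j / log X`. -/
theorem result (θ : ℝ) (hθ : 0 < θ) (hθ1 : θ ≤ 1) (ε : ℝ) (hε : 0 < ε) : ∃ c : ℝ, 0 < c ∧ ∀ δ : ℝ, 0 < δ →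
    ∃ B : ℕ, ∀ᶠ X : ℕ in atTop, ∀ Y : ℕ, (X : ℝ) ^ θ ≤ Y → 2 * Y ≤ X →
      ∀ A : Set ℕ, ((∀ p ∈ A, p.Prime ∧ ClassOne p) ∨ (∀ p ∈ A, p.Prime ∧ ¬ ClassOne p)) →
        (((Ioc X (X + Y)).filter (fun m => m ∈ A ∧ ¬ Regular A c δ B X Y m)).card : ℝ) ≤
          ε * Y / Real.log X := by
  obtain ⟨r, hr, h⟩ := reg θ hθ hθ1
  obtain ⟨c, hc, h1⟩ := h r le_rfl ε hε
  refine ⟨c, hc, fun δ hδ => ?_⟩
  obtain ⟨B, h2⟩ := h1 δ hδ
  refine ⟨B, ?_⟩
  filter_upwards [h2] with X hX Y hXY hYX A hA
  refine hX Y hXY hYX A (fun q hq => ?_)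
  have hqp : q.Prime := by
    rcases hA with hA | hA
    · exact (hA q hq).1
    · exact (hA q hq).1
  intro p hp hd
  have h1 : p = q := (Nat.prime_dvd_prime_iff_eq hp hqp).1 hd
  have h2 : (1 : ℝ) < q := by exact_mod_cast hqp.one_lt
  have hr2 : (2 : ℝ) ≤ r := by exact_mod_cast hr
  rw [h1]
  have h5 : (1 / (r : ℝ)) < 1 := by
    rw [div_lt_one (by linarith)]
    linarith
  have := Real.rpow_lt_rpow_of_exponent_lt h2 h5
  rwa [Real.rpow_one] at this

end Pool.Agent.Results.MP_d0fd9b_nt.RegularPoints
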