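import Pool.Agent.R376.SampD

/-!
# The class numbers of `ℚ(√p)` along a very thin random set of primes

Let `0 < κ ≤ 1` (as small as one likes) and let `S` be a random set of natural numbers: `n ∈ S` with
probability `(n + 1) ^ (κ - 1)`, independently. Almost every `S` has only `O(n ^ κ)` elements up to `n`.
Almost surely, for all `h`, `m`, `a` simultaneously and with `A` the set of the primes `p ≡ a (mod m)`
for which `ℚ(√p)` has class number `h`:

* `#{p ≤ N : p ∈ A} / π(N)` tends to `δ` if and only if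
  `#{p ≤ N : p ∈ A, p ∈ S} / #{p ≤ N : p ∈ S}` does, for every real `δ`;
* for every `η < κ / 2` the first proportion is equal, up to `O(N ^ (-η))`, to the proportion over `S`
  with the weights `(p + 1) ^ (1 - κ)`.

So the assertion of Cohen and Lenstra holds if and only if it holds along `S`, and `R(N)` is determined
up to `O(N ^ (-η))` by the class numbers for `O(N ^ κ)` primes.
-/

set_option autoImplicit false

namespace Pool.Agent.Results.MP_d0fd9b_nt.SparseRandomPrimes

open Filter Topology MeasureTheory ProbabilityTheory Finset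

/-- The real quadratic field `ℚ(√d)` has class number `h`. -/
def HasClassNumber (h d : ℕ) : Prop :=
  ∀ (K : Type) [Field K] [NumberField K], Module.finrank ℚ K = 2 → (∃ x : K, x ^ 2 = (d : K)) →
    NumberField.classNumber K = h

/-- The primes `p ≡ a (mod m)` with `h(p) = h`. -/
def primesWith (h m a : ℕ) : Set ℕ := {p | p.Prime ∧ p ≡ a [MOD m] ∧ HasClassNumber h p}

/-- The constant `C = ∏_{q odd prime} ∏_{k ≥ 2} (1 - q^{-k})`. -/
noncomputable def C : ℝ :=
  ∏' q : {q : ℕ // q.Prime ∧ q ≠ 2}, ∏' k : ℕ, (1 - (((q : ℕ) : ℝ) ^ (k + 2))⁻¹)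

/-- The probability `(n + 1) ^ (κ - 1)`. -/
noncomputable def density (κ : ℝ) (n : ℕ) : ℝ := ((n : ℝ) + 1) ^ (κ - 1)

/-- The law of the random set `S ⊆ ℕ` which contains `n` with the probability `density κ n`
(truncated to `[0, 1]`), independently for all `n`; a set is a sequence in `Bool`. -/
noncomputable def randomSet (κ : ℝ) : Measure (ℕ → Bool) :=
  Measure.infinitePi fun n =>
    bernoulliMeasure true false (Set.projIcc (0 : ℝ) 1 zero_le_one (density κ n))

open Classical in
/-- `#{p ≤ N : p ∈ A} / #{p ≤ N : p prime}`; for the primes with `h(p) = 1` this is `R(N)`. -/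
noncomputable def proportion (A : Set ℕ) (N : ℕ) : ℝ :=
  (((range (N + 1)).filter fun p => p ∈ A).card : ℝ) /
    (((range (N + 1)).filter fun p => p.Prime).card : ℝ)

open Classical in
/-- `#{p ≤ N : p ∈ A, p ∈ S} / #{p ≤ N : p prime, p ∈ S}`. -/
noncomputable def sampledProportion (S : ℕ → Bool) (A : Set ℕ) (N : ℕ) : ℝ :=
  (((range (N + 1)).filter fun p => p ∈ A ∧ S p = true).card : ℝ) /
    (((range (N + 1)).filter fun p => p.Prime ∧ S p = true).card : ℝ)

open Classical in
/-- The same with the weights `(p + 1) ^ (1 - κ)`. -/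
noncomputable def weightedProportion (κ : ℝ) (S : ℕ → Bool) (A : Set ℕ) (N : ℕ) : ℝ :=
  (∑ p ∈ (range (N + 1)).filter fun p => p ∈ A ∧ S p = true, ((p : ℝ) + 1) ^ (1 - κ)) /
    (∑ p ∈ (range (N + 1)).filter fun p => p.Prime ∧ S p = true, ((p : ℝ) + 1) ^ (1 - κ))

open R376.Samp R376.Rnd in
theorem card_cn (B : Set ℕ) (q : ℕ → Prop) [DecidablePred q] (hq : ∀ n, q n ↔ n ∈ B) (N : ℕ) :
    (((range (N + 1)).filter q).card : ℝ) = cn B N := by
  unfold cn ind
  rw [card_filter]
  push_cast
  refine sum_congr rfl fun n _ => ?_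
  by_cases hn : n ∈ B
  · rw [Set.indicator_of_mem hn, if_pos ((hq n).2 hn)]; rfl
  · rw [Set.indicator_of_notMem hn, if_neg (fun h => hn ((hq n).1 h))]

open R376.Samp R376.Rnd in
theorem card_sn (S : ℕ → Bool) (B : Set ℕ) (q : ℕ → Prop) [DecidablePred q]
    (hq : ∀ n, q n ↔ n ∈ B ∧ S n = true) (N : ℕ) :
    (((range (N + 1)).filter q).card : ℝ) = sn S B N := by
  unfold sn ind
  rw [card_filter]
  push_cast
  refine sum_congr rfl fun n _ => ?_
  by_cases hn : n ∈ B
  · by_cases hs : S n = true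
    · rw [Set.indicator_of_mem hn, if_pos ((hq n).2 ⟨hn, hs⟩), if_pos hs]
      simp
    · rw [if_neg (fun h => hs ((hq n).1 h).2), if_neg hs, zero_mul]
  · rw [Set.indicator_of_notMem hn, if_neg (fun h => hn ((hq n).1 h).1), mul_zero]

open R376.Samp R376.Rnd in
theorem sum_wn (κ : ℝ) (S : ℕ → Bool) (B : Set ℕ) (q : ℕ → Prop) [DecidablePred q]
    (hq : ∀ n, q n ↔ n ∈ B ∧ S n = true) (N : ℕ) :
    (∑ p ∈ (range (N + 1)).filter q, ((p : ℝ) + 1) ^ (1 - κ)) = wn κ S B N := by
  unfold wn ind th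
  rw [sum_filter]
  refine sum_congr rfl fun n _ => ?_
  have hn1 : (0 : ℝ) < (n : ℝ) + 1 := by positivity
  by_cases hn : n ∈ B
  · by_cases hs : S n = true
    · rw [Set.indicator_of_mem hn, if_pos ((hq n).2 ⟨hn, hs⟩), if_pos hs, one_div,
        ← Real.rpow_neg hn1.le, neg_sub]
      simp
    · rw [if_neg (fun h => hs ((hq n).1 h).2), if_neg hs, zero_div, zero_mul]
  · rw [Set.indicator_of_notMem hn, if_neg (fun h => hn ((hq n).1 h).1), mul_zero]

open R376.Samp R376.Rnd in
theorem proportion_eq (A : Set ℕ) : proportion A = pr A := by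
  funext N
  unfold proportion pr
  classical
  refine congrArg₂ (· / ·) ?_ ?_
  · convert card_cn A (fun p => p ∈ A) (fun _ => Iff.rfl) N
  · convert card_cn PP (fun p => p.Prime) (fun _ => Iff.rfl) N

open R376.Samp R376.Rnd in
theorem sampled_eq (S : ℕ → Bool) (A : Set ℕ) : sampledProportion S A = spr S A := by
  funext N
  unfold sampledProportion spr
  classical
  refine congrArg₂ (· / ·) ?_ ?_
  · convert card_sn S A (fun p => p ∈ A ∧ S p = true) (fun _ => Iff.rfl) N
  · convert card_sn S PP (fun p => p.Prime ∧ S p = true) (fun _ => Iff.rfl) N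

open R376.Samp R376.Rnd in
theorem weighted_eq (κ : ℝ) (S : ℕ → Bool) (A : Set ℕ) :
    weightedProportion κ S A = wpr κ S A := by
  funext N
  unfold weightedProportion wpr
  classical
  refine congrArg₂ (· / ·) ?_ ?_
  · convert sum_wn κ S A (fun p => p ∈ A ∧ S p = true) (fun _ => Iff.rfl) N
  · convert sum_wn κ S PP (fun p => p.Prime ∧ S p = true) (fun _ => Iff.rfl) N

/-- **The class numbers of `ℚ(√p)` along a very thin random set of primes.** -/
theorem result (κ : ℝ) (h0 : 0 < κ) (h1 : κ ≤ 1) :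
    ∀ᵐ S ∂(randomSet κ),
      -- `S` has at most `K (n + 1)^κ` elements up to `n`
      (∃ K : ℝ, ∀ n : ℕ, (((range (n + 1)).filter fun m => S m = true).card : ℝ) ≤
        K * ((n : ℝ) + 1) ^ κ) ∧
      (∀ h m a : ℕ,
        -- the limits
        (∀ δ : ℝ, Tendsto (proportion (primesWith h m a)) atTop (𝓝 δ) ↔
          Tendsto (sampledProportion S (primesWith h m a)) atTop (𝓝 δ)) ∧
        -- the rate
        (∀ η : ℝ, 0 < η → η < κ / 2 → ∃ K : ℝ, ∀ N : ℕ, 2 ≤ N →
          |weightedProportion κ S (primesWith h m a) N - proportion (primesWith h m a) N| ≤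
            K * (N : ℝ) ^ (-η))) ∧
      -- Q1 and Q1 along `S`
      (Tendsto (proportion {p | p.Prime ∧ HasClassNumber 1 p}) atTop (𝓝 C) ↔
        Tendsto (sampledProportion S {p | p.Prime ∧ HasClassNumber 1 p}) atTop (𝓝 C)) := by
  have key : ∀ᵐ S ∂(R376.Rnd.lawS (R376.Rnd.th κ)), _ :=
    R376.Samp.main h0 h1 (fun i : ℕ × ℕ × ℕ => primesWith i.1 i.2.1 i.2.2)
      (fun i p hp => hp.1)
  refine Filter.Eventually.mono key ?_
  rintro S ⟨a1, a2⟩
  have e : ({p | p.Prime ∧ HasClassNumber 1 p} : Set ℕ) = primesWith 1 1 0 := by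
    ext p
    simp only [primesWith, Set.mem_ofPred_eq]
    exact ⟨fun h => ⟨h.1, Nat.modEq_one, h.2⟩, fun h => ⟨h.1, h.2.2⟩⟩
  refine ⟨a1, fun h m a => ⟨fun δ => ?_, ?_⟩, ?_⟩
  · rw [proportion_eq, sampled_eq]
    exact (a2 (h, m, a)).2 δ
  · rw [proportion_eq, weighted_eq]
    exact (a2 (h, m, a)).1
  · rw [e, proportion_eq, sampled_eq]
    exact (a2 (1, 1, 0)).2 C

end Pool.Agent.Results.MP_d0fd9b_nt.SparseRandomPrimes
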