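import Pool.Agent.R385.TL.Sets

/-!
# The primes `p` for which `ℚ(√p)` has class number one, and the frequency of large values

Let `A` be the set of the primes `p` with `h(p) = 1` and `U(t) = ∑_{p ∈ A} cos(t log p) / p`.  The series
converges for almost all real `t`.  The density of `A` is described by the frequency of the large values
of `U`.
-/

set_option autoImplicit false

namespace Pool.Agent.Results.MP_d0fd9b_nt.TailExponents

open MeasureTheory Filter Topology
open Pool.Agent.R385.TL Pool.Agent.R385.TL.Sets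

/-- the real quadratic field `ℚ(√d)` has class number one -/
def ClassOne (d : ℕ) : Prop :=
  ∀ (K : Type) [Field K] [NumberField K], Module.finrank ℚ K = 2 → (∃ x : K, x ^ 2 = (d : K)) →
    NumberField.classNumber K = 1

/-- The primes `p` with `h(p) = 1`.  `proportion classOnePrimes x` is `R(x)`. -/
def classOnePrimes : Set ℕ := {p | p.Prime ∧ ClassOne p}

/-- `C = ∏_{q odd prime} ∏_{k ≥ 2} (1 - q^{-k})`. -/
noncomputable def C : ℝ :=
  ∏' q : {q : ℕ // q.Prime ∧ q ≠ 2}, ∏' k : ℕ, (1 - (((q : ℕ) : ℝ) ^ (k + 2))⁻¹)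

lemma tprod_nonneg' {ι : Type} {f : ι → ℝ} (h : ∀ i, 0 ≤ f i) : 0 ≤ ∏' i, f i := by
  by_cases hf : Multipliable f
  · exact ge_of_tendsto' hf.hasProd fun s => Finset.prod_nonneg fun i _ => h i
  · rw [tprod_eq_one_of_not_multipliable hf]
    exact zero_le_one

lemma C_nonneg : 0 ≤ C := by
  refine tprod_nonneg' fun q => tprod_nonneg' fun k => ?_
  have h1 : (1 : ℝ) ≤ (q : ℕ) := by exact_mod_cast q.2.1.one_lt.le
  have h2 : (1 : ℝ) ≤ (((q : ℕ) : ℝ) ^ (k + 2)) := one_le_pow₀ h1
  have h3 := inv_le_one_of_one_le₀ h2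
  linarith

/-- **Class number one and the frequency of large values.** -/
theorem result : Laws classOnePrimes ∧
    (Tendsto (proportion classOnePrimes) atTop (𝓝 C) ↔
      (∃ ρ : ℝ, Tendsto (proportion classOnePrimes) atTop (𝓝 ρ)) ∧
        TailExponent C (U classOnePrimes)) := by
  have h := laws (A := classOnePrimes) fun p hp => hp.1
  exact ⟨h, h.2.2.2 C C_nonneg⟩

end Pool.Agent.Results.MP_d0fd9b_nt.TailExponents
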